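import Pool.Agent.N874.QM.Stm

/-!
# Automorphisms permute the primes; every prime lies over a prime

Project QM of helper874, parts QM/SIG and QM/LIE (helper756); port of `N55/PM/SigLie.lean`
(helper55) to number fields.
-/

set_option autoImplicit false
set_option linter.all false

open Polynomial IsDedekindDomain WithZero NumberField
open Pool.Agent.N783.PQ
open scoped Classical

namespace Pool.Agent.N756.QM

section comap

variable {O : Type} [CommRing O] [IsDedekindDomain O]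

/-- The prime `φ ⁻¹ 𝔓`. -/
def cmp (φ : O ≃+* O) (𝔓 : HeightOneSpectrum O) : HeightOneSpectrum O where
  asIdeal := Ideal.comap φ 𝔓.asIdeal
  isPrime := by
    haveI := 𝔓.isPrime
    exact Ideal.comap_isPrime φ 𝔓.asIdeal
  ne_bot := by
    intro h
    apply 𝔓.ne_bot
    rw [eq_bot_iff]
    intro x hx
    have : φ.symm x ∈ Ideal.comap φ 𝔓.asIdeal := by
      rw [Ideal.mem_comap, RingEquiv.apply_symm_apply]
      exact hx
    rw [h, Ideal.mem_bot] at this
    rw [Ideal.mem_bot]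
    have h2 := congrArg φ this
    rwa [RingEquiv.apply_symm_apply, map_zero] at h2

theorem mem_pow (φ : O ≃+* O) (I : Ideal O) (n : ℕ) (z : O) :
    z ∈ (Ideal.comap φ I) ^ n ↔ φ z ∈ I ^ n := by
  have e : Ideal.comap φ I = Ideal.map φ.symm I := (Ideal.map_symm φ).symm
  rw [e, ← Ideal.map_pow, Ideal.map_symm φ, Ideal.mem_comap]

theorem int_eq (φ : O ≃+* O) (𝔓 : HeightOneSpectrum O) (z : O) :
    (cmp φ 𝔓).intValuation z = 𝔓.intValuation (φ z) := by
  by_cases hz : z = 0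
  · rw [hz, map_zero, map_zero, map_zero]
  have hz' : φ z ≠ 0 := by
    rwa [Ne, map_eq_zero_iff φ φ.injective]
  apply le_antisymm
  · rw [𝔓.intValuation_eq_exp_neg_multiplicity hz', HeightOneSpectrum.intValuation_le_pow_iff_mem]
    change z ∈ (Ideal.comap φ 𝔓.asIdeal) ^ _
    rw [mem_pow, ← HeightOneSpectrum.intValuation_le_pow_iff_mem,
      𝔓.intValuation_eq_exp_neg_multiplicity hz']
  · rw [(cmp φ 𝔓).intValuation_eq_exp_neg_multiplicity hz,
      HeightOneSpectrum.intValuation_le_pow_iff_mem, ← mem_pow]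
    change z ∈ (cmp φ 𝔓).asIdeal ^ _
    rw [← HeightOneSpectrum.intValuation_le_pow_iff_mem,
      (cmp φ 𝔓).intValuation_eq_exp_neg_multiplicity hz]

end comap

theorem sig : Pool.Agent.N874.QM.S_SIG := by
  intro F' _ _ σ 𝔓
  have hinj : Function.Injective (algebraMap (𝓞 F') F') := RingOfIntegers.coe_injective
  let φ : 𝓞 F' ≃+* 𝓞 F' := RingOfIntegers.mapRingEquiv (σ : F' ≃+* F')
  have hφ : ∀ z, algebraMap (𝓞 F') F' (φ z) = σ (algebraMap (𝓞 F') F' z) := fun z => rfl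
  refine ⟨cmp φ 𝔓, ?_, ?_⟩
  · intro x
    obtain ⟨a, b, hb, rfl⟩ := IsFractionRing.div_surjective (A := 𝓞 F') x
    rw [map_div₀ σ, ← hφ, ← hφ, map_div₀, map_div₀, HeightOneSpectrum.valuation_of_algebraMap,
      HeightOneSpectrum.valuation_of_algebraMap, HeightOneSpectrum.valuation_of_algebraMap,
      HeightOneSpectrum.valuation_of_algebraMap, int_eq, int_eq]
  · intro P
    unfold Ov
    change (P : 𝓞 F') ∈ Ideal.comap φ 𝔓.asIdeal ↔ _
    rw [Ideal.mem_comap, map_natCast]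

theorem lie : Pool.Agent.N874.QM.S_LIE := by
  intro F F' _ _ _ _ _ 𝔓'
  have hinj : Function.Injective (algebraMap (𝓞 F') F') := RingOfIntegers.coe_injective
  let φ : 𝓞 F →+* 𝓞 F' := RingOfIntegers.mapRingHom (algebraMap F F')
  have hφ : ∀ z, algebraMap (𝓞 F') F' (φ z) = algebraMap F F' (algebraMap (𝓞 F) F z) :=
    fun z => rfl
  -- a nonzero integer in the prime
  have hq : ∃ q : ℤ, (q : 𝓞 F') ≠ 0 ∧ (q : 𝓞 F') ∈ 𝔓'.asIdeal := by
    obtain ⟨z, hz, hz0⟩ := Submodule.exists_mem_ne_zero_of_ne_bot 𝔓'.ne_bot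
    have h1 : IsIntegral ℤ z := RingOfIntegers.isIntegral z
    have h2 := Ideal.comap_ne_bot_of_integral_mem (I := 𝔓'.asIdeal) hz0 hz h1
    obtain ⟨q, hq1, hq0⟩ := Submodule.exists_mem_ne_zero_of_ne_bot h2
    refine ⟨q, ?_, ?_⟩
    · exact_mod_cast hq0
    · rw [Ideal.mem_comap] at hq1
      exact hq1
  obtain ⟨q, hq0, hq1⟩ := hq
  have hp : (Ideal.comap φ 𝔓'.asIdeal).IsPrime := by
    haveI := 𝔓'.isPrime
    exact Ideal.comap_isPrime φ 𝔓'.asIdeal
  let 𝔓 : HeightOneSpectrum (𝓞 F) :=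
    { asIdeal := Ideal.comap φ 𝔓'.asIdeal
      isPrime := hp
      ne_bot := by
        intro h
        have h1 : (q : 𝓞 F) ∈ Ideal.comap φ 𝔓'.asIdeal := by
          rw [Ideal.mem_comap, map_intCast]
          exact hq1
        rw [h, Ideal.mem_bot] at h1
        apply hq0
        rw [← map_intCast φ, h1, map_zero] }
  have hmem : ∀ z : 𝓞 F, z ∈ 𝔓.asIdeal ↔ φ z ∈ 𝔓'.asIdeal := fun z => Iff.rfl
  -- values of fractions
  have key : ∀ (x : F) (n d : 𝓞 F), d ∉ 𝔓.asIdeal → x * algebraMap (𝓞 F) F d =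
      algebraMap (𝓞 F) F n → 𝔓'.valuation F' (algebraMap F F' x) = 𝔓'.intValuation (φ n) := by
    intro x n d hd h
    have h1 : 𝔓'.intValuation (φ d) = 1 := by
      rw [HeightOneSpectrum.intValuation_eq_one_iff]
      exact fun h2 => hd ((hmem d).2 h2)
    have h2 : 𝔓'.valuation F' (algebraMap F F' x) * 𝔓'.intValuation (φ d) =
        𝔓'.intValuation (φ n) := by
      have a1 : 𝔓'.valuation F' (algebraMap (𝓞 F') F' (φ d)) = 𝔓'.intValuation (φ d) :=
        HeightOneSpectrum.valuation_of_algebraMap _ _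
      have a2 : 𝔓'.valuation F' (algebraMap (𝓞 F') F' (φ n)) = 𝔓'.intValuation (φ n) :=
        HeightOneSpectrum.valuation_of_algebraMap _ _
      rw [← a1, ← a2, hφ, hφ, ← map_mul, ← map_mul, h]
    rwa [h1, mul_one] at h2
  refine ⟨𝔓, ⟨?_, ?_⟩, ?_⟩
  · intro x hx
    obtain ⟨n, d, h⟩ := 𝔓.exists_primeCompl_mul_eq_of_integer x hx
    rw [key x n d d.2 h]
    exact 𝔓'.intValuation_le_one _
  · intro x hx
    obtain ⟨n, d, h⟩ := 𝔓.exists_primeCompl_mul_eq_of_integer x hx.le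
    have a1 : 𝔓.valuation F (algebraMap (𝓞 F) F n) < 1 ↔ n ∈ 𝔓.asIdeal :=
      HeightOneSpectrum.valuation_lt_one_iff_mem (K := F) 𝔓 n
    rw [key x n d d.2 h, HeightOneSpectrum.intValuation_lt_one_iff_mem, ← hmem, ← a1, ← h, map_mul]
    refine lt_of_le_of_lt ?_ hx
    have h3 := mul_le_mul' (le_refl (𝔓.valuation F x)) (𝔓.valuation_le_one (K := F) (d : 𝓞 F))
    rwa [mul_one] at h3
  · intro P
    unfold Ov
    rw [hmem, map_natCast]

end Pool.Agent.N756.QM
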